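import Mathlib

set_option autoImplicit false

/-!
# A positive vector orthogonal to a subspace, with a stationarity property
-/

namespace Pool.Agent.J4.H81.HD

open Finset Filter Topology

variable {ι : Type} [Fintype ι]

/-- If a subspace contains no nonnegative vector other than zero, some positive vector is orthogonal
to it. -/
lemma exists_pos (K : Submodule ℝ (ι → ℝ)) (hK : ∀ y ∈ K, (∀ i, 0 ≤ y i) → y = 0) :
    ∃ x : ι → ℝ, (∀ i, 0 < x i) ∧ ∀ k ∈ K, ∑ i, x i * k i = 0 := by
  classical
  have hdisj : Disjoint (stdSimplex ℝ ι) (K : Set (ι → ℝ)) := by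
    rw [Set.disjoint_left]
    intro y hy hyK
    have h0 := hK y hyK hy.1
    have h1 := hy.2
    rw [h0] at h1
    simp at h1
  obtain ⟨f, u, v, h1, h2, h3⟩ := geometric_hahn_banach_compact_closed (convex_stdSimplex ℝ ι)
    (isCompact_stdSimplex ℝ ι) K.convex K.closed_of_finiteDimensional hdisj
  have hv0 : v < 0 := by
    have := h3 0 K.zero_mem
    simpa using this
  have hf0 : ∀ k ∈ K, f k = 0 := by
    intro k hk
    by_contra hne
    have h4 := h3 ((v / f k) • k) (K.smul_mem _ hk)
    rw [map_smul, smul_eq_mul, div_mul_cancel₀ _ hne] at h4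
    exact lt_irrefl _ h4
  have hfx : ∀ k : ι → ℝ, f k = ∑ i, f (Pi.single i 1) * k i := by
    intro k
    conv_lhs => rw [← LinearMap.sum_single_apply (fun _ : ι => ℝ) k]
    rw [map_sum]
    refine Finset.sum_congr rfl fun i _ => ?_
    have : (Pi.single i (k i) : ι → ℝ) = k i • Pi.single i 1 := by
      ext j
      by_cases h : j = i
      · subst h; simp
      · simp [h]
    rw [this, map_smul, smul_eq_mul, mul_comm]
  refine ⟨fun i => -f (Pi.single i 1), fun i => ?_, fun k hk => ?_⟩
  · have h5 := h1 (Pi.single i 1) (single_mem_stdSimplex ℝ i)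
    linarith
  · have h6 := hf0 k hk
    rw [hfx k] at h6
    have : ∑ i, -f (Pi.single i 1) * k i = -∑ i, f (Pi.single i 1) * k i := by
      rw [← Finset.sum_neg_distrib]
      exact Finset.sum_congr rfl fun i _ => by ring
    rw [this, h6, neg_zero]

/-- The vector can be chosen such that the sum of its logarithms is stationary. -/
lemma exists_weights [Nonempty ι] (K : Submodule ℝ (ι → ℝ))
    (hK : ∀ y ∈ K, (∀ i, 0 ≤ y i) → y = 0) :
    ∃ x : ι → ℝ, (∀ i, 0 < x i) ∧ ∑ i, x i = 1 ∧ (∀ k ∈ K, ∑ i, x i * k i = 0) ∧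
      ∀ z : ι → ℝ, (∀ k ∈ K, ∑ i, z i * k i = 0) →
        ∑ i, z i / x i = Fintype.card ι * ∑ i, z i := by
  classical
  obtain ⟨w, hw, hwK⟩ := exists_pos K hK
  set X : Set (ι → ℝ) := stdSimplex ℝ ι ∩ ⋂ k ∈ K, {x | ∑ i, x i * k i = 0} with hX
  have hXc : IsCompact X := by
    refine (isCompact_stdSimplex ℝ ι).inter_right ?_
    refine isClosed_biInter fun k _ => ?_
    exact isClosed_eq (by fun_prop) continuous_const
  have hsw : 0 < ∑ i, w i := Finset.sum_pos (fun i _ => hw i) Finset.univ_nonempty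
  have hw1 : (fun i => w i / ∑ j, w j) ∈ X := by
    refine ⟨⟨fun i => (div_pos (hw i) hsw).le, ?_⟩, ?_⟩
    · rw [← Finset.sum_div, div_self hsw.ne']
    · rw [Set.mem_iInter₂]
      intro k hk
      show ∑ i, w i / (∑ j, w j) * k i = 0
      have : ∑ i, w i / (∑ j, w j) * k i = (∑ i, w i * k i) / ∑ j, w j := by
        rw [Finset.sum_div]
        exact Finset.sum_congr rfl fun i _ => by ring
      rw [this, hwK k hk, zero_div]
  have hcont : ContinuousOn (fun x : ι → ℝ => ∏ i, x i) X := by
    refine Continuous.continuousOn ?_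
    fun_prop
  obtain ⟨x, hxX, hxmax⟩ := hXc.exists_isMaxOn ⟨_, hw1⟩ hcont
  have hprod : 0 < ∏ i, x i := by
    refine lt_of_lt_of_le ?_ (hxmax hw1)
    exact Finset.prod_pos fun i _ => div_pos (hw i) hsw
  have hxpos : ∀ i, 0 < x i := by
    intro i
    refine lt_of_le_of_ne (hxX.1.1 i) fun h => ?_
    have : ∏ i, x i = 0 := Finset.prod_eq_zero (Finset.mem_univ i) h.symm
    linarith
  have hxsum : ∑ i, x i = 1 := hxX.1.2
  have hxK : ∀ k ∈ K, ∑ i, x i * k i = 0 := by
    intro k hk
    have := hxX.2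
    rw [Set.mem_iInter₂] at this
    exact this k hk
  have key : ∀ z : ι → ℝ, (∀ k ∈ K, ∑ i, z i * k i = 0) → ∑ i, z i = 0 →
      ∑ i, z i / x i = 0 := by
    intro z hz hz0
    have hev : ∀ᶠ τ in 𝓝 (0 : ℝ), ∀ i, 0 < x i + τ * z i := by
      rw [Filter.eventually_all]
      intro i
      have hc : Tendsto (fun τ : ℝ => x i + τ * z i) (𝓝 0) (𝓝 (x i + 0 * z i)) := by
        apply Continuous.tendsto
        fun_prop
      rw [zero_mul, add_zero] at hc
      exact hc.eventually (lt_mem_nhds (hxpos i))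
    have hder : HasDerivAt (fun τ : ℝ => ∑ i, Real.log (x i + τ * z i)) (∑ i, z i / x i) 0 := by
      have h1 : ∀ i ∈ (Finset.univ : Finset ι),
          HasDerivAt (fun τ : ℝ => Real.log (x i + τ * z i)) (z i / x i) 0 := by
        intro i _
        have h2 : HasDerivAt (fun τ : ℝ => x i + τ * z i) (z i) 0 := by
          simpa using ((hasDerivAt_id (0 : ℝ)).mul_const (z i)).const_add (x i)
        have h3 := h2.log (by rw [zero_mul, add_zero]; exact (hxpos i).ne')
        simpa using h3
      exact HasDerivAt.fun_sum h1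
    have hmax : IsLocalMax (fun τ : ℝ => ∑ i, Real.log (x i + τ * z i)) 0 := by
      filter_upwards [hev] with τ hτ
      have hmem : (fun i => x i + τ * z i) ∈ X := by
        refine ⟨⟨fun i => (hτ i).le, ?_⟩, ?_⟩
        · rw [Finset.sum_add_distrib, ← Finset.mul_sum, hz0, hxsum]; simp
        · rw [Set.mem_iInter₂]
          intro k hk
          show ∑ i, (x i + τ * z i) * k i = 0
          have : ∑ i, (x i + τ * z i) * k i = ∑ i, x i * k i + τ * ∑ i, z i * k i := by
            rw [Finset.mul_sum, ← Finset.sum_add_distrib]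
            exact Finset.sum_congr rfl fun i _ => by ring
          rw [this, hxK k hk, hz k hk]; simp
      have h4 : ∏ i, (x i + τ * z i) ≤ ∏ i, x i := hxmax hmem
      have h5 : ∑ i, Real.log (x i + τ * z i) = Real.log (∏ i, (x i + τ * z i)) :=
        (Real.log_prod fun i _ => (hτ i).ne').symm
      have h6 : ∑ i, Real.log (x i) = Real.log (∏ i, x i) :=
        (Real.log_prod fun i _ => (hxpos i).ne').symm
      simp only [zero_mul, add_zero]
      rw [h5, h6]
      exact Real.log_le_log (Finset.prod_pos fun i _ => hτ i) h4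
    exact hmax.hasDerivAt_eq_zero hder
  refine ⟨x, hxpos, hxsum, hxK, fun z hz => ?_⟩
  have h1 := key (fun i => z i - (∑ j, z j) * x i) (fun k hk => ?_) ?_
  · have h2 : ∑ i, (z i - (∑ j, z j) * x i) / x i = ∑ i, z i / x i - Fintype.card ι * ∑ j, z j := by
      have : ∀ i, (z i - (∑ j, z j) * x i) / x i = z i / x i - ∑ j, z j := by
        intro i
        have := (hxpos i).ne'
        field_simp
      rw [Finset.sum_congr rfl fun i _ => this i, Finset.sum_sub_distrib, Finset.sum_const,
        Finset.card_univ, nsmul_eq_mul]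
    rw [h2] at h1
    linarith
  · have h3 : ∑ i, (z i - (∑ j, z j) * x i) * k i =
        ∑ i, z i * k i - (∑ j, z j) * ∑ i, x i * k i := by
      rw [Finset.mul_sum, ← Finset.sum_sub_distrib]
      exact Finset.sum_congr rfl fun i _ => by ring
    rw [h3, hz k hk, hxK k hk]; simp
  · rw [Finset.sum_sub_distrib, ← Finset.mul_sum, hxsum]; ring

end Pool.Agent.J4.H81.HD
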