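import Pool.Agent.J4.H81.HD.Tr
import Pool.Agent.J4.H81.HD.Max

set_option autoImplicit false

/-!
# Matrices with unit diagonal and other entries in `(-1, 0]`
-/

namespace Pool.Agent.J4.H81.HD

open Finset Module

/-- Unit diagonal, the other entries between `-1` and `0`; an entry `-1` only for antipodal rows or
antipodal columns. -/
structure Adm {ι : Type} (M : Matrix ι ι ℝ) : Prop where
  diag : ∀ i, M i i = 1
  nonpos : ∀ i j, i ≠ j → M i j ≤ 0
  ge : ∀ i j, i ≠ j → -1 ≤ M i j
  anti : ∀ i j, i ≠ j → M i j = -1 → (∀ k, M j k = -M i k) ∨ (∀ k, M k i = -M k j)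

/-- the bound -/
def bnd (d : ℕ) : ℕ := if d ≤ 5 then 2 * d else if d = 6 then 15 else if d = 7 then 27 else 63

lemma bnd_add (a b : ℕ) (h : a + b ≤ 8) : bnd a + 2 * b ≤ bnd (a + b) := by
  have ha : a ≤ 8 := by omega
  have hb : b ≤ 8 := by omega
  unfold bnd
  split_ifs <;> omega

lemma bnd_mono (a b : ℕ) (h : a ≤ b) : bnd a ≤ bnd b := by
  unfold bnd
  split_ifs <;> omega

variable {ι : Type} [Fintype ι] [DecidableEq ι]

lemma Adm.sq_le {M : Matrix ι ι ℝ} (h : Adm M) (i j : ι) :
    M i j ^ 2 ≤ (if i = j then 2 else 0) - M i j := by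
  by_cases hij : i = j
  · subst hij
    rw [h.diag, if_pos rfl]; norm_num
  · rw [if_neg hij]
    nlinarith [h.nonpos i j hij, h.ge i j hij]

/-- principal submatrix -/
def blk {ι : Type} (M : Matrix ι ι ℝ) (p : ι → Prop) : Matrix {i // p i} {i // p i} ℝ :=
  M.submatrix Subtype.val Subtype.val

lemma Adm.sub {M : Matrix ι ι ℝ} (h : Adm M) (p : ι → Prop) : Adm (blk M p) := by
  refine ⟨fun i => h.diag _, fun i j hij => h.nonpos _ _ fun e => hij (Subtype.ext e),
    fun i j hij => h.ge _ _ fun e => hij (Subtype.ext e), fun i j hij hm => ?_⟩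
  rcases h.anti _ _ (fun e => hij (Subtype.ext e)) hm with h1 | h1
  · exact Or.inl fun k => h1 k.1
  · exact Or.inr fun k => h1 k.1

lemma rank_scale (M : Matrix ι ι ℝ) (a b : ι → ℝ) :
    (Matrix.of fun i j => a i * M i j * b j).rank ≤ M.rank := by
  have : (Matrix.of fun i j => a i * M i j * b j) = Matrix.diagonal a * M * Matrix.diagonal b := by
    ext i j
    simp [Matrix.mul_diagonal, Matrix.diagonal_mul]
  rw [this]
  exact (Matrix.rank_mul_le_left _ _).trans (Matrix.rank_mul_le_right _ _)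

/-- a positive vector in the kernel -/
lemma Adm.of_pos_kernel {M : Matrix ι ι ℝ} (h : Adm M) (y : ι → ℝ) (hy : ∀ i, 0 < y i)
    (hM : ∀ i, ∑ j, M i j * y j = 0) : Fintype.card ι ≤ 2 * M.rank := by
  set A : Matrix ι ι ℝ := Matrix.of fun i j => (Real.sqrt (y i))⁻¹ * M i j * Real.sqrt (y j)
    with hA
  have hs : ∀ i, 0 < Real.sqrt (y i) := fun i => Real.sqrt_pos.2 (hy i)
  have hsq : ∀ i, Real.sqrt (y i) ^ 2 = y i := fun i => Real.sq_sqrt (hy i).le
  have h1 := trace_sq A
  have h2 : ∑ i, A i i = Fintype.card ι := by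
    have : ∀ i, A i i = 1 := by
      intro i
      show (Real.sqrt (y i))⁻¹ * M i i * Real.sqrt (y i) = 1
      rw [h.diag]
      field_simp [(hs i).ne']
    rw [Finset.sum_congr rfl fun i _ => this i]
    simp
  have h3 : ∑ i, ∑ j, A i j ^ 2 ≤ 2 * Fintype.card ι := by
    have h4 : ∀ i, ∑ j, A i j ^ 2 ≤ 2 := by
      intro i
      have h5 : ∀ j, A i j ^ 2 ≤ (y i)⁻¹ * (y j * ((if i = j then 2 else 0) - M i j)) := by
        intro j
        have : A i j ^ 2 = (y i)⁻¹ * (y j * M i j ^ 2) := by
          show ((Real.sqrt (y i))⁻¹ * M i j * Real.sqrt (y j)) ^ 2 = _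
          rw [mul_pow, mul_pow, inv_pow, hsq, hsq]
          ring
        rw [this]
        exact mul_le_mul_of_nonneg_left (mul_le_mul_of_nonneg_left (h.sq_le i j) (hy j).le)
          (inv_nonneg.2 (hy i).le)
      calc ∑ j, A i j ^ 2 ≤ ∑ j, (y i)⁻¹ * (y j * ((if i = j then 2 else 0) - M i j)) :=
            Finset.sum_le_sum fun j _ => h5 j
        _ = (y i)⁻¹ * (2 * y i - ∑ j, M i j * y j) := by
            rw [← Finset.mul_sum]
            congr 1
            have : ∀ j, y j * ((if i = j then 2 else 0) - M i j) =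
                (if i = j then 2 * y j else 0) - M i j * y j := by
              intro j
              split_ifs <;> ring
            rw [Finset.sum_congr rfl fun j _ => this j, Finset.sum_sub_distrib]
            simp
        _ = 2 := by
            rw [hM i, sub_zero]
            field_simp [(hy i).ne']
    calc ∑ i, ∑ j, A i j ^ 2 ≤ ∑ i : ι, (2 : ℝ) := Finset.sum_le_sum fun i _ => h4 i
      _ = 2 * Fintype.card ι := by simp [mul_comm]
  have h6 : (A.rank : ℝ) ≤ M.rank := by exact_mod_cast rank_scale M _ _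
  rw [h2] at h1
  have h7 : (Fintype.card ι : ℝ) ^ 2 ≤ M.rank * (2 * Fintype.card ι) := by
    refine h1.trans ?_
    have h8 : 0 ≤ ∑ i, ∑ j, A i j ^ 2 := by positivity
    have h9 : (0 : ℝ) ≤ M.rank := by positivity
    exact mul_le_mul h6 h3 h8 h9
  rcases Nat.eq_zero_or_pos (Fintype.card ι) with h0 | h0
  · omega
  · have h10 : (0 : ℝ) < Fintype.card ι := by exact_mod_cast h0
    have h11 : (Fintype.card ι : ℝ) ≤ 2 * M.rank := by nlinarith
    exact_mod_cast h11

/-- no nonnegative vector in the kernel -/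
lemma Adm.of_no_kernel [Nonempty ι] {M : Matrix ι ι ℝ} (h : Adm M)
    (hK : ∀ y : ι → ℝ, (∀ i, ∑ j, M i j * y j = 0) → (∀ i, 0 ≤ y i) → y = 0)
    (i₀ j₀ : ι) (hij : i₀ ≠ j₀) (hm : -1 < M i₀ j₀) (hm0 : M i₀ j₀ < 0) :
    (9 - (M.rank : ℝ)) * Fintype.card ι < 8 * M.rank := by
  obtain ⟨x, hx, hx1, hxK, hst⟩ := exists_weights (LinearMap.ker M.mulVecLin) (by
    intro y hy
    refine hK y fun i => ?_
    have := congrFun (LinearMap.mem_ker.1 hy) i
    simpa [Matrix.mulVec, dotProduct] using this)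
  have hs : ∀ i, 0 < Real.sqrt (x i) := fun i => Real.sqrt_pos.2 (hx i)
  have hsq : ∀ i, Real.sqrt (x i) ^ 2 = x i := fun i => Real.sq_sqrt (hx i).le
  have hss : ∀ i, Real.sqrt (x i) * Real.sqrt (x i) = x i := fun i =>
    Real.mul_self_sqrt (hx i).le
  set A : Matrix ι ι ℝ := Matrix.of fun i j => Real.sqrt (x i) * M i j * (Real.sqrt (x j))⁻¹
    with hA
  set e : EuclideanSpace ℝ ι := WithLp.toLp 2 fun i => Real.sqrt (x i) with he
  have hei : ∀ i, e i = Real.sqrt (x i) := fun i => rfl
  have he1 : ‖e‖ = 1 := by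
    have h1 : ‖e‖ ^ 2 = 1 := by
      rw [← real_inner_self_eq_norm_sq, inner_eq]
      simp only [hei, hss, hx1]
    exact (pow_eq_one_iff_of_nonneg (norm_nonneg e) two_ne_zero).1 h1
  set t : ℝ := ∑ j, ∑ i, x i * M i j with ht
  have hin : inner ℝ e (lin A e) = t := by
    rw [inner_eq, ht, Finset.sum_comm]
    refine Finset.sum_congr rfl fun i _ => ?_
    rw [lin_apply, Finset.mul_sum]
    refine Finset.sum_congr rfl fun j _ => ?_
    rw [hei, hei]
    show Real.sqrt (x i) * (Real.sqrt (x i) * M i j * (Real.sqrt (x j))⁻¹ * Real.sqrt (x j)) = _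
    have h3 := (hs j).ne'
    rw [mul_assoc (Real.sqrt (x i) * M i j), inv_mul_cancel₀ h3, mul_one, ← mul_assoc, hss]
  have hker : ∀ k, lin A k = 0 → inner ℝ e k = 0 := by
    intro k hk
    have h1 : (fun j => (Real.sqrt (x j))⁻¹ * k j) ∈ LinearMap.ker M.mulVecLin := by
      rw [LinearMap.mem_ker]
      ext i
      have h2 : lin A k i = 0 := by rw [hk]; rfl
      rw [lin_apply] at h2
      have h3 : ∑ j, A i j * k j = Real.sqrt (x i) * ∑ j, M i j * ((Real.sqrt (x j))⁻¹ * k j) := by
        rw [Finset.mul_sum]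
        refine Finset.sum_congr rfl fun j _ => ?_
        show Real.sqrt (x i) * M i j * (Real.sqrt (x j))⁻¹ * k j = _
        ring
      rw [h3] at h2
      have h4 := (mul_eq_zero.1 h2).resolve_left (hs i).ne'
      simpa [Matrix.mulVec, dotProduct] using h4
    have h5 := hxK _ h1
    rw [inner_eq, ← h5]
    refine Finset.sum_congr rfl fun j _ => ?_
    rw [hei]
    have h6 : x j * ((Real.sqrt (x j))⁻¹ * k j) = Real.sqrt (x j) * k j := by
      have h7 : x j * (Real.sqrt (x j))⁻¹ = Real.sqrt (x j) := by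
        rw [← div_eq_mul_inv]
        exact Real.div_sqrt
      rw [← mul_assoc, h7]
    exact h6.symm
  obtain ⟨hr1, hX0, hT⟩ := trace_sq_vec A e he1 hker
  rw [hin] at hX0 hT
  have htr : ∑ i, A i i = Fintype.card ι := by
    have : ∀ i, A i i = 1 := by
      intro i
      show Real.sqrt (x i) * M i i * (Real.sqrt (x i))⁻¹ = 1
      rw [h.diag, mul_one, mul_inv_cancel₀ (hs i).ne']
    rw [Finset.sum_congr rfl fun i _ => this i]
    simp
  -- the Frobenius norm
  have hz := hst (fun j => ∑ i, x i * M i j) (fun k hk => by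
    have h1 : ∑ j, (∑ i, x i * M i j) * k j = ∑ i, x i * ∑ j, M i j * k j := by
      simp_rw [Finset.sum_mul, Finset.mul_sum]
      rw [Finset.sum_comm]
      refine Finset.sum_congr rfl fun i _ => Finset.sum_congr rfl fun j _ => ?_
      ring
    rw [h1]
    refine Finset.sum_eq_zero fun i _ => ?_
    have h2 := congrFun (LinearMap.mem_ker.1 hk) i
    have h3 : ∑ j, M i j * k j = 0 := by simpa [Matrix.mulVec, dotProduct] using h2
    rw [h3, mul_zero])
  have hAsq : ∀ i j, A i j ^ 2 = x i * M i j ^ 2 * (x j)⁻¹ := by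
    intro i j
    show (Real.sqrt (x i) * M i j * (Real.sqrt (x j))⁻¹) ^ 2 = _
    rw [mul_pow, mul_pow, inv_pow, hsq, hsq]
  have hle : ∀ i j, A i j ^ 2 ≤ x i * ((if i = j then 2 else 0) - M i j) * (x j)⁻¹ := by
    intro i j
    rw [hAsq]
    exact mul_le_mul_of_nonneg_right (mul_le_mul_of_nonneg_left (h.sq_le i j) (hx i).le)
      (inv_nonneg.2 (hx j).le)
  have hlt : A i₀ j₀ ^ 2 < x i₀ * ((if i₀ = j₀ then 2 else 0) - M i₀ j₀) * (x j₀)⁻¹ := by
    rw [hAsq, if_neg hij]
    refine mul_lt_mul_of_pos_right (mul_lt_mul_of_pos_left ?_ (hx i₀)) (inv_pos.2 (hx j₀))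
    nlinarith
  have hFr : ∑ i, ∑ j, A i j ^ 2 < 2 * Fintype.card ι - Fintype.card ι * t := by
    calc ∑ i, ∑ j, A i j ^ 2
        < ∑ i, ∑ j, x i * ((if i = j then 2 else 0) - M i j) * (x j)⁻¹ := by
          refine Finset.sum_lt_sum (fun i _ => Finset.sum_le_sum fun j _ => hle i j)
            ⟨i₀, Finset.mem_univ _, Finset.sum_lt_sum (fun j _ => hle i₀ j)
              ⟨j₀, Finset.mem_univ _, hlt⟩⟩
      _ = ∑ i, ∑ j, ((if i = j then 2 else 0) - x i * M i j / x j) := by
          refine Finset.sum_congr rfl fun i _ => Finset.sum_congr rfl fun j _ => ?_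
          have h3 := (hx j).ne'
          split_ifs with h4
          · subst h4
            field_simp
          · field_simp
            ring
      _ = 2 * Fintype.card ι - Fintype.card ι * t := by
          simp_rw [Finset.sum_sub_distrib]
          congr 1
          · simp [mul_comm]
          · rw [← hz, Finset.sum_comm]
            exact Finset.sum_congr rfl fun j _ => (Finset.sum_div _ _ _).symm
  rw [htr] at hT
  have hrk : (A.rank : ℝ) ≤ M.rank := by exact_mod_cast rank_scale M _ _
  have hr1' : (1 : ℝ) ≤ A.rank := by exact_mod_cast hr1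
  set n : ℝ := (Fintype.card ι : ℝ) with hn
  set r : ℝ := (M.rank : ℝ) with hr
  set X : ℝ := ∑ i, ∑ j, A i j ^ 2 - t ^ 2 with hXd
  have hn1 : 1 ≤ n := by
    rw [hn]
    exact_mod_cast Fintype.card_pos
  have hT2 : (n - t) ^ 2 ≤ (r - 1) * X :=
    hT.trans (mul_le_mul_of_nonneg_right (by linarith) hX0)
  have hX2 : X < 2 * n - n * t - t ^ 2 := by
    rw [hXd]; linarith
  by_contra hcon
  push Not at hcon
  have hid : 4 * r * ((n - t) ^ 2 - (r - 1) * (2 * n - n * t - t ^ 2)) =
      (2 * r * t + (r - 3) * n) ^ 2 + n * (r - 1) * ((9 - r) * n - 8 * r) := by ring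
  have hr0 : 1 ≤ r := by linarith
  rcases eq_or_lt_of_le hr0 with h1 | h1
  · rw [← h1] at hT2
    have h2 : (n - t) ^ 2 ≤ 0 := by linarith
    have h3 : n = t := by nlinarith
    rw [← h3] at hX2
    nlinarith
  · have h2 : (n - t) ^ 2 < (r - 1) * (2 * n - n * t - t ^ 2) :=
      lt_of_le_of_lt hT2 (mul_lt_mul_of_pos_left hX2 (by linarith))
    have h3 : 0 ≤ n * (r - 1) * ((9 - r) * n - 8 * r) := by
      refine mul_nonneg (mul_nonneg (by linarith) (by linarith)) (by linarith)
    have h4 : 4 * r * ((n - t) ^ 2 - (r - 1) * (2 * n - n * t - t ^ 2)) < 0 :=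
      mul_neg_of_pos_of_neg (by linarith) (by linarith)
    rw [hid] at h4
    linarith [sq_nonneg (2 * r * t + (r - 3) * n)]

/-- Block triangular matrices: the ranks of the diagonal blocks. -/
lemma rank_block (M : Matrix ι ι ℝ) (p : ι → Prop) [DecidablePred p]
    (hM : ∀ i j, ¬ p i → p j → M i j = 0) :
    (blk M p).rank +
      (blk M fun i => ¬ p i).rank ≤ M.rank := by
  set MS := blk M p with hMS
  set MT := blk M fun i => ¬ p i with hMT
  have hcard : Fintype.card {i // p i} + Fintype.card {i // ¬ p i} = Fintype.card ι := by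
    rw [Fintype.card_subtype_compl (fun i => p i)]
    have := Fintype.card_subtype_le p
    omega
  have h1 := LinearMap.finrank_range_add_finrank_ker M.mulVecLin
  have h2 := LinearMap.finrank_range_add_finrank_ker MS.mulVecLin
  have h3 := LinearMap.finrank_range_add_finrank_ker MT.mulVecLin
  rw [Module.finrank_fintype_fun_eq_card] at h1 h2 h3
  have e1 : M.rank = finrank ℝ (LinearMap.range M.mulVecLin) := rfl
  have e2 : MS.rank = finrank ℝ (LinearMap.range MS.mulVecLin) := rfl
  have e3 : MT.rank = finrank ℝ (LinearMap.range MT.mulVecLin) := rfl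
  let φ : LinearMap.ker M.mulVecLin →ₗ[ℝ] ({i // ¬ p i} → ℝ) :=
    (LinearMap.funLeft ℝ ℝ (Subtype.val : {i // ¬ p i} → ι)) ∘ₗ
      (LinearMap.ker M.mulVecLin).subtype
  have h4 := LinearMap.finrank_range_add_finrank_ker φ
  have hmem : ∀ v : LinearMap.ker M.mulVecLin, ∀ i, ∑ j, M i j * v.1 j = 0 := by
    intro v i
    exact congrFun (LinearMap.mem_ker.1 v.2) i
  have h5 : finrank ℝ (LinearMap.range φ) ≤ finrank ℝ (LinearMap.ker MT.mulVecLin) := by
    apply Submodule.finrank_mono
    rintro _ ⟨v, rfl⟩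
    rw [LinearMap.mem_ker]
    ext i
    have h6 := hmem v i.1
    rw [← Fintype.sum_subtype_add_sum_subtype p] at h6
    have h7 : ∑ j : {j // p j}, M i.1 j.1 * v.1 j.1 = 0 := by
      refine Finset.sum_eq_zero fun j _ => ?_
      rw [hM i.1 j.1 i.2 j.2, zero_mul]
    rw [h7, zero_add] at h6
    exact h6
  have h8 : finrank ℝ (LinearMap.ker φ) ≤ finrank ℝ (LinearMap.ker MS.mulVecLin) := by
    have hv : ∀ v : LinearMap.ker φ, ∀ i, ¬ p i → v.1.1 i = 0 := by
      intro v i hi
      exact congrFun (LinearMap.mem_ker.1 v.2) ⟨i, hi⟩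
    let ψ : LinearMap.ker φ →ₗ[ℝ] LinearMap.ker MS.mulVecLin :=
      LinearMap.codRestrict _ ((LinearMap.funLeft ℝ ℝ (Subtype.val : {i // p i} → ι)) ∘ₗ
        (LinearMap.ker M.mulVecLin).subtype ∘ₗ (LinearMap.ker φ).subtype) (by
        intro v
        rw [LinearMap.mem_ker]
        ext i
        have h6 := hmem v.1 i.1
        rw [← Fintype.sum_subtype_add_sum_subtype p] at h6
        have h7 : ∑ j : {j // ¬ p j}, M i.1 j.1 * v.1.1 j.1 = 0 := by
          refine Finset.sum_eq_zero fun j _ => ?_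
          rw [hv v j.1 j.2, mul_zero]
        rw [h7, add_zero] at h6
        exact h6)
    apply LinearMap.finrank_le_finrank_of_injective (f := ψ)
    intro v w hvw
    apply Subtype.ext
    apply Subtype.ext
    ext i
    by_cases hi : p i
    · have := congrFun (congrArg Subtype.val hvw) ⟨i, hi⟩
      simpa [ψ, LinearMap.funLeft_apply] using this
    · rw [hv v i hi, hv w i hi]
  omega

lemma rank_block' (M : Matrix ι ι ℝ) (p : ι → Prop) [DecidablePred p]
    (hM : ∀ i j, p i → ¬ p j → M i j = 0) :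
    (blk M p).rank +
      (blk M fun i => ¬ p i).rank ≤ M.rank := by
  have h := rank_block M.transpose p (fun i j hi hj => hM j i hj hi)
  have h1 : (blk M.transpose p).rank =
      (blk M p).rank := by
    exact Matrix.rank_transpose (blk M p)
  have h2 : (blk M.transpose fun i => ¬ p i).rank =
      (blk M fun i => ¬ p i).rank := by
    exact Matrix.rank_transpose (blk M fun i => ¬ p i)
  rw [h1, h2, Matrix.rank_transpose] at h
  exact h

/-- the induction step -/
lemma step (n : ℕ)
    (IH : ∀ (κ : Type) [Fintype κ] [DecidableEq κ] (M : Matrix κ κ ℝ), Fintype.card κ < n →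
      Adm M → M.rank ≤ 8 → Fintype.card κ ≤ bnd M.rank)
    (hn : Fintype.card ι = n) (M : Matrix ι ι ℝ) (h : Adm M) (hr : M.rank ≤ 8)
    (p : ι → Prop) [DecidablePred p] (i₀ : ι) (hi₀ : p i₀)
    (hp : Fintype.card {i // p i} ≤
      2 * (blk M p).rank)
    (hM : (∀ i j, ¬ p i → p j → M i j = 0) ∨ (∀ i j, p i → ¬ p j → M i j = 0)) :
    Fintype.card ι ≤ bnd M.rank := by
  have hrk : (blk M p).rank +
      (blk M fun i => ¬ p i).rank ≤ M.rank := by
    rcases hM with hM | hM
    · exact rank_block M p hM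
    · exact rank_block' M p hM
  have hcard : Fintype.card {i // p i} + Fintype.card {i // ¬ p i} = Fintype.card ι := by
    rw [Fintype.card_subtype_compl (fun i => p i)]
    have := Fintype.card_subtype_le p
    omega
  have hpos : 0 < Fintype.card {i // p i} := Fintype.card_pos_iff.2 ⟨⟨i₀, hi₀⟩⟩
  have h1 := IH {i // ¬ p i} (blk M fun i => ¬ p i)
    (by omega) (h.sub fun i => ¬ p i) (by omega)
  have h2 := bnd_add (blk M fun i => ¬ p i).rank
    (blk M p).rank (by omega)
  have h3 := bnd_mono _ _ (show (blk M fun i => ¬ p i).rank +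
    (blk M p).rank ≤ M.rank by omega)
  omega

/-- **The bound for the size of the matrices.** -/
theorem card_le_bnd : ∀ (n : ℕ) (ι : Type) [Fintype ι] [DecidableEq ι] (M : Matrix ι ι ℝ),
    Fintype.card ι = n → Adm M → M.rank ≤ 8 → Fintype.card ι ≤ bnd M.rank := by
  intro n
  induction n using Nat.strong_induction_on with
  | _ n IH =>
  intro ι _ _ M hn h hr
  have IH' : ∀ (κ : Type) [Fintype κ] [DecidableEq κ] (M : Matrix κ κ ℝ), Fintype.card κ < n →
      Adm M → M.rank ≤ 8 → Fintype.card κ ≤ bnd M.rank := by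
    intro κ _ _ M' hκ hM' hr'
    exact IH _ hκ κ M' rfl hM' hr'
  by_cases hemp : IsEmpty ι
  · rw [Fintype.card_eq_zero]
    exact Nat.zero_le _
  rw [not_isEmpty_iff] at hemp
  -- an entry `-1`
  by_cases hA : ∃ i j, i ≠ j ∧ M i j = -1
  · obtain ⟨i, j, hij, hm⟩ := hA
    have hji : M j i = -1 := by
      rcases h.anti i j hij hm with h1 | h1
      · rw [h1 i, h.diag]
      · have := h1 j
        rw [h.diag j] at this
        exact this
    refine step n IH' hn M h hr (fun k => k = i ∨ k = j) i (Or.inl rfl) ?_ ?_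
    · have hc : Fintype.card {k // k = i ∨ k = j} = 2 := by
        rw [Fintype.card_subtype]
        have : (Finset.univ.filter fun k => k = i ∨ k = j) = {i, j} := by
          ext k; simp
        rw [this, Finset.card_pair hij]
      rw [hc]
      have hpos : 1 ≤ (blk M fun k => k = i ∨ k = j).rank := by
        rw [Nat.one_le_iff_ne_zero]
        intro h0
        have h1 := trace_sq (blk M fun k => k = i ∨ k = j)
        rw [h0] at h1
        simp only [blk, Matrix.submatrix_apply, h.diag, Finset.sum_const, Finset.card_univ, hc,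
          nsmul_eq_mul, mul_one] at h1
        norm_num at h1
      omega
    · rcases h.anti i j hij hm with h1 | h1
      · right
        intro a b ha hb
        push Not at hb
        have h2 := h.nonpos i b (Ne.symm hb.1)
        have h3 := h.nonpos j b (Ne.symm hb.2)
        have h4 := h1 b
        rcases ha with rfl | rfl <;> linarith
      · left
        intro a b ha hb
        push Not at ha
        have h2 := h.nonpos a i ha.1
        have h3 := h.nonpos a j ha.2
        have h4 := h1 a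
        rcases hb with rfl | rfl <;> linarith
  push Not at hA
  -- a nonnegative vector in the kernel
  by_cases hB : ∃ y : ι → ℝ, (∀ i, ∑ j, M i j * y j = 0) ∧ (∀ i, 0 ≤ y i) ∧ y ≠ 0
  · obtain ⟨y, hy1, hy2, hy3⟩ := hB
    obtain ⟨i₀, hi₀⟩ : ∃ i, y i ≠ 0 := by
      by_contra hc
      push Not at hc
      exact hy3 (funext hc)
    have hpos0 : 0 < y i₀ := lt_of_le_of_ne (hy2 i₀) (Ne.symm hi₀)
    have hz : ∀ i, ¬ 0 < y i → y i = 0 := fun i hi => le_antisymm (not_lt.1 hi) (hy2 i)
    classical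
    have hzero : ∀ i j, ¬ 0 < y i → 0 < y j → M i j = 0 := by
      intro i j hi hj
      have hij : i ≠ j := by
        rintro rfl; exact hi hj
      have h1 : ∀ k ∈ Finset.univ, M i k * y k ≤ 0 := by
        intro k _
        by_cases hk : i = k
        · rw [← hk, hz i hi, mul_zero]
        · exact mul_nonpos_of_nonpos_of_nonneg (h.nonpos i k hk) (hy2 k)
      have h2 := (Finset.sum_eq_zero_iff_of_nonpos h1).1 (hy1 i) j (Finset.mem_univ j)
      exact (mul_eq_zero.1 h2).resolve_right hj.ne'
    refine step n IH' hn M h hr (fun k => 0 < y k) i₀ hpos0 ?_ (Or.inl hzero)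
    refine Adm.of_pos_kernel (h.sub fun k => 0 < y k) (fun k => y k.1) (fun k => k.2) ?_
    intro i
    have h6 := hy1 i.1
    rw [← Fintype.sum_subtype_add_sum_subtype (fun k => 0 < y k)] at h6
    have h7 : ∑ j : {j // ¬ 0 < y j}, M i.1 j.1 * y j.1 = 0 := by
      refine Finset.sum_eq_zero fun j _ => ?_
      rw [hz j.1 j.2, mul_zero]
    rw [h7, add_zero] at h6
    exact h6
  push Not at hB
  have hK : ∀ y : ι → ℝ, (∀ i, ∑ j, M i j * y j = 0) → (∀ i, 0 ≤ y i) → y = 0 := hB
  by_cases hC : ∃ i j, i ≠ j ∧ M i j < 0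
  · obtain ⟨i, j, hij, hm⟩ := hC
    have hlt := h.of_no_kernel hK i j hij (lt_of_le_of_ne (h.ge i j hij) (Ne.symm (hA i j hij))) hm
    have hcast : (9 - (M.rank : ℤ)) * (Fintype.card ι : ℤ) < 8 * M.rank := by
      exact_mod_cast hlt
    unfold bnd
    generalize M.rank = r at *
    generalize Fintype.card ι = c at *
    interval_cases r <;> simp at hcast ⊢ <;> omega
  · push Not at hC
    have hM1 : M = 1 := by
      ext i j
      by_cases hij : i = j
      · subst hij; rw [h.diag, Matrix.one_apply_eq]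
      · rw [Matrix.one_apply_ne hij]
        exact le_antisymm (h.nonpos i j hij) (hC i j hij)
    have hrk : M.rank = Fintype.card ι := by
      rw [hM1]; exact Matrix.rank_one
    rw [hrk] at hr ⊢
    unfold bnd
    generalize Fintype.card ι = c at *
    split_ifs <;> omega

end Pool.Agent.J4.H81.HD
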