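import Pool.Agent.Results.MP_75a0ab_co.NotDense

set_option autoImplicit false

/-!
# The lower bound `2 d` for the separable Hadwiger number
-/

open Set

namespace Pool.Agent.J4.H81.HD

open Pool.Agent.Results.MP_75a0ab_co.NotDense

/-- Touching translates `2 y i + K` with the sign conditions form a configuration (the version of
`config_of` with weak inequalities). -/
lemma config_of_le {d : ℕ} {κ : Type} [Fintype κ] {K : Set (E d)} (hK : ∀ x ∈ K, -x ∈ K)
    (y : κ → E d) (f : κ → (E d →L[ℝ] ℝ)) (hy : ∀ i, y i ∈ K)
    (hmax : ∀ i, ∀ x ∈ K, f i x ≤ f i (y i))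
    (hpos : ∀ i, 0 < f i (y i)) (hneg : ∀ i j, i ≠ j → f i (y j) ≤ 0) :
    ∃ V : Finset (E d), V.card = Fintype.card κ ∧ IsSepHadwigerConfig K V := by
  classical
  have hinj : Function.Injective (fun i => (2 : ℝ) • y i) := by
    intro i j hij
    by_contra hne
    have h1 : y i = y j := by
      have := congrArg (fun z => (1 / 2 : ℝ) • z) hij
      simpa [smul_smul] using this
    have h2 := hneg i j hne
    rw [← h1] at h2
    exact absurd (hpos i) (not_lt.mpr h2)
  have hf0 : ∀ i, f i ≠ 0 := by
    intro i h0
    have := hpos i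
    rw [h0] at this
    simp at this
  have hmin : ∀ i, ∀ x ∈ K, -(f i (y i)) ≤ f i x := by
    intro i x hx
    have := hmax i _ (hK x hx)
    rw [map_neg] at this
    linarith
  let W : Set (E d) := insert 0 ((Finset.univ.image (fun i => (2 : ℝ) • y i) : Finset (E d)) : Set (E d))
  have hW : ∀ w ∈ W, w = 0 ∨ ∃ i, w = (2 : ℝ) • y i := by
    intro w hw
    rcases hw with hw | hw
    · exact Or.inl hw
    · right
      simp only [Finset.coe_image, Finset.coe_univ, image_univ, mem_range] at hw
      obtain ⟨i, hi⟩ := hw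
      exact ⟨i, hi.symm⟩
  -- the translate by `2 y i` lies above the hyperplane
  have up : ∀ i, ∀ x ∈ tr K ((2 : ℝ) • y i), f i (y i) ≤ f i x := by
    rintro i _ ⟨x, hx, rfl⟩
    have := hmin i x hx
    simp only [map_add, map_smul, smul_eq_mul]
    linarith
  -- all others lie below
  have down : ∀ i, ∀ w ∈ W, w ≠ (2 : ℝ) • y i → ∀ x ∈ tr K w, f i x ≤ f i (y i) := by
    rintro i w hw hne _ ⟨x, hx, rfl⟩
    have h1 := hmax i x hx
    rcases hW w hw with rfl | ⟨j, rfl⟩
    · simpa using h1
    · have hij : i ≠ j := by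
        rintro rfl
        exact hne rfl
      have := hneg i j hij
      simp only [map_add, map_smul, smul_eq_mul]
      linarith
  have miss : ∀ i, ∀ w ∈ W, Disjoint (interior (tr K w)) {x | f i x = f i (y i)} := by
    intro i w hw
    rw [Set.disjoint_left]
    intro x hx hx'
    have hx' : f i x = f i (y i) := hx'
    by_cases h : w = (2 : ℝ) • y i
    · subst h
      have hneg' : -(f i) ≠ 0 := neg_ne_zero.mpr (hf0 i)
      have := interior_le (c := -(f i (y i))) hneg' (fun x hx => by
        have := up i x hx
        show (-(f i)) x ≤ -(f i (y i))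
        simp only [neg_apply]
        linarith) x hx
      simp only [neg_apply] at this
      linarith
    · have := interior_le (hf0 i) (down i w hw h) x hx
      linarith
  have hsep : IsTotallySeparable K W := by
    intro u hu v hv huv
    rcases hW v hv with hv0 | ⟨j, hvj⟩
    · rcases hW u hu with hu0 | ⟨i, hui⟩
      · exact absurd (hu0.trans hv0.symm) huv
      · refine ⟨-(f i), -(f i (y i)), neg_ne_zero.mpr (hf0 i), ?_, ?_, ?_⟩
        · intro x hx
          rw [hui] at hx
          have := up i x hx
          simp only [neg_apply]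
          linarith
        · intro x hx
          have := down i v hv (fun h => huv (hui.trans h.symm)) x hx
          simp only [neg_apply]
          linarith
        · intro w hw
          have := miss i w hw
          simpa [neg_inj] using this
    · refine ⟨f j, f j (y j), hf0 j, ?_, ?_, miss j⟩
      · exact down j u hu (fun h => huv (h.trans hvj.symm))
      · rw [hvj]
        exact up j
  refine ⟨Finset.univ.image (fun i => (2 : ℝ) • y i), ?_, ?_, ?_, ?_, hsep⟩
  · rw [Finset.card_image_of_injective _ hinj]
    simp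
  · intro h0
    simp only [Finset.mem_image, Finset.mem_univ, true_and] at h0
    obtain ⟨i, hi⟩ := h0
    have := hpos i
    have h1 : y i = 0 := by
      have := congrArg (fun z => (1 / 2 : ℝ) • z) hi
      simpa [smul_smul] using this
    rw [h1] at this
    simp at this
  · intro v hv
    simp only [Finset.mem_image, Finset.mem_univ, true_and] at hv
    obtain ⟨i, rfl⟩ := hv
    refine ⟨y i, ⟨-(y i), hK _ (hy i), ?_⟩, hy i⟩
    module
  · intro u hu v hv huv
    obtain ⟨g, c, hg, h1, h2, _⟩ := hsep u hu v hv huv
    rw [Set.disjoint_left]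
    intro x hx hx'
    have a1 := interior_le hg h1 x hx
    have a2 := interior_le (c := -c) (neg_ne_zero.mpr hg) (fun x hx => by
        have := h2 x hx
        show (-g) x ≤ -c
        simp only [neg_apply]
        linarith) x hx'
    simp only [neg_apply] at a2
    linarith

/-- Auerbach's theorem: vectors `v i` of `K` and functionals `f i` at most `1` on `K` with
`f i (v j) = δ i j`. -/
lemma auerbach {d : ℕ} {K : Set (E d)} (hc : IsCompact K) (h0 : (0 : E d) ∈ interior K) :
    ∃ (v : Fin d → E d) (f : Fin d → (E d →L[ℝ] ℝ)), (∀ i, v i ∈ K) ∧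
      (∀ i j, f i (v j) = if i = j then 1 else 0) ∧ ∀ i, ∀ x ∈ K, f i x ≤ 1 := by
  classical
  set b := (EuclideanSpace.basisFun (Fin d) ℝ).toBasis with hb
  have hcont : Continuous fun v : Fin d → E d => b.det v := by
    have : (fun v : Fin d → E d => b.det v) =
        fun v : Fin d → E d => (Matrix.of fun i j => v j i : Matrix (Fin d) (Fin d) ℝ).det := by
      funext v
      rw [Module.Basis.det_apply]
      congr 1
    rw [this]
    refine Continuous.matrix_det ?_
    refine continuous_pi fun i => continuous_pi fun j => ?_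
    show Continuous fun v : Fin d → E d => v j i
    fun_prop
  obtain ⟨r, hr, hball⟩ := Metric.isOpen_iff.1 isOpen_interior 0 h0
  have hKc : IsCompact (Set.pi univ (fun _ : Fin d => K)) := isCompact_univ_pi fun _ => hc
  have hmem : (fun i => (r / 2) • b i) ∈ Set.pi univ (fun _ : Fin d => K) := by
    intro i _
    refine interior_subset (hball ?_)
    rw [mem_ball_zero_iff, norm_smul]
    have : ‖b i‖ = 1 := by
      rw [hb, OrthonormalBasis.coe_toBasis]
      exact (EuclideanSpace.basisFun (Fin d) ℝ).norm_eq_one i
    rw [this, mul_one, Real.norm_of_nonneg (by linarith)]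
    linarith
  obtain ⟨v, hv, hmax⟩ := hKc.exists_isMaxOn ⟨_, hmem⟩
    (f := fun v : Fin d → E d => |b.det v|) (hcont.abs.continuousOn)
  have hdet : 0 < |b.det v| := by
    refine lt_of_lt_of_le ?_ (hmax hmem)
    show 0 < |b.det fun i => (r / 2) • b i|
    have h1 : b.det (fun i => (r / 2) • b i) = (∏ _i : Fin d, (r / 2)) • b.det b :=
      b.det.toMultilinearMap.map_smul_univ (fun _ => r / 2) b
    rw [h1, Module.Basis.det_self, smul_eq_mul, mul_one, abs_pos]
    exact Finset.prod_ne_zero_iff.2 fun i _ => by linarith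
  have hdet0 : b.det v ≠ 0 := abs_pos.1 hdet
  refine ⟨v, fun i => (b.det v)⁻¹ • LinearMap.toContinuousLinearMap
    (b.det.toMultilinearMap.toLinearMap v i), fun i => hv i (mem_univ i), ?_, ?_⟩
  · intro i j
    show (b.det v)⁻¹ * b.det (Function.update v i (v j)) = _
    split_ifs with h
    · subst h
      rw [Function.update_eq_self, inv_mul_cancel₀ hdet0]
    · rw [b.det.map_update_self v h, mul_zero]
  · intro i x hx
    show (b.det v)⁻¹ * b.det (Function.update v i x) ≤ 1
    have h1 : |b.det (Function.update v i x)| ≤ |b.det v| := by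
      apply hmax
      intro j _
      by_cases h : j = i
      · subst h; simpa using hx
      · simpa [h] using hv j (mem_univ j)
    refine (le_abs_self _).trans ?_
    rw [abs_mul, abs_inv, inv_mul_le_iff₀ hdet, mul_one]
    exact h1

/-- `2 d ≤ H_sep(K)` -/
theorem two_mul_le_Hsep {d : ℕ} {K : Set (E d)} (hc : IsCompact K) (hs : ∀ x ∈ K, -x ∈ K)
    (h0 : (0 : E d) ∈ interior K) : ((2 * d : ℕ) : ℕ∞) ≤ Hsep K := by
  obtain ⟨v, f, hv, hfv, hf1⟩ := auerbach hc h0
  have h1 : ∀ p : Fin d × Bool, (if p.2 then v p.1 else -v p.1) ∈ K := by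
    rintro ⟨i, b⟩
    cases b
    · exact hs _ (hv i)
    · exact hv i
  have h2 : ∀ p : Fin d × Bool, ∀ x ∈ K, (if p.2 then f p.1 else -f p.1) x ≤
      (if p.2 then f p.1 else -f p.1) (if p.2 then v p.1 else -v p.1) := by
    rintro ⟨i, b⟩ x hx
    cases b
    · have h1 := hf1 i _ (hs x hx)
      simp only [map_neg] at h1
      simp [hfv]
      linarith
    · simp [hfv]
      exact hf1 i x hx
  have h3 : ∀ p : Fin d × Bool,
      0 < (if p.2 then f p.1 else -f p.1) (if p.2 then v p.1 else -v p.1) := by
    rintro ⟨i, b⟩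
    cases b <;> simp [hfv]
  have h4 : ∀ p q : Fin d × Bool, p ≠ q →
      (if p.2 then f p.1 else -f p.1) (if q.2 then v q.1 else -v q.1) ≤ 0 := by
    rintro ⟨i, b⟩ ⟨j, c⟩ hne
    by_cases hij : i = j
    · subst hij
      cases b <;> cases c <;> simp [hfv] at hne ⊢
    · cases b <;> cases c <;> simp [hfv, hij]
  obtain ⟨V, hV, hVc⟩ := config_of_le hs _ _ h1 h2 h3 h4
  refine le_iSup₂_of_le V hVc ?_
  rw [hV, Fintype.card_prod, Fintype.card_fin, Fintype.card_bool, mul_comm]

end Pool.Agent.J4.H81.HD
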