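import Pool.Agent.J4.H81.HD.Geo
import Pool.Agent.J4.H81.HD.Low

set_option autoImplicit false

/-!
# Density of the smooth bodies
-/

namespace Pool.Agent.J4.H81.HD

open Set Pool.Agent.Results.MP_75a0ab_co.NotDense
open scoped Pointwise RealInnerProductSpace

variable {d : ℕ}

lemma unit_of_support {η : ℝ} (hη : 0 < η) {a u : E d} (ha : a ≠ 0) (hu : ‖u‖ ≤ η)
    (h : ∀ z : E d, ‖z‖ ≤ η → ⟪a, z⟫ ≤ ⟪a, u⟫) : u = (η / ‖a‖) • a := by
  have ha' : 0 < ‖a‖ := norm_pos_iff.2 ha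
  have h1 := h ((η / ‖a‖) • a) (by
    rw [norm_smul, Real.norm_eq_abs, abs_of_pos (by positivity), div_mul_cancel₀ _ ha'.ne'])
  rw [inner_smul_right, real_inner_self_eq_norm_sq] at h1
  have h2 : η / ‖a‖ * ‖a‖ ^ 2 = η * ‖a‖ := by field_simp
  rw [h2] at h1
  have h3 : ‖u - (η / ‖a‖) • a‖ ^ 2 ≤ 0 := by
    rw [norm_sub_sq_real, inner_smul_right, norm_smul, Real.norm_eq_abs,
      abs_of_pos (by positivity : 0 < η / ‖a‖), div_mul_cancel₀ _ ha'.ne', real_inner_comm]
    have h4 : η * η ≤ η / ‖a‖ * ⟪a, u⟫ := by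
      rw [div_mul_eq_mul_div, le_div_iff₀ ha']
      nlinarith
    have h5 : ‖u‖ ^ 2 ≤ η ^ 2 := by
      have := norm_nonneg u
      nlinarith
    nlinarith
  have h6 : ‖u - (η / ‖a‖) • a‖ = 0 := by
    have := sq_nonneg ‖u - (η / ‖a‖) • a‖
    exact pow_eq_zero_iff (two_ne_zero) |>.1 (le_antisymm h3 this)
  exact sub_eq_zero.1 (norm_eq_zero.1 h6)

/-- The outer parallel bodies are smooth. -/
lemma isSmooth_add_ball (K : Set (E d)) {η : ℝ} (hη : 0 < η) :
    IsSmooth (K + Metric.closedBall (0 : E d) η) := by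
  rintro x hx f g hf hg hfx hgx
  obtain ⟨k, hk, u, hu, rfl⟩ := hx
  have hu' : ‖u‖ ≤ η := mem_closedBall_zero_iff.1 hu
  set a := (InnerProductSpace.toDual ℝ (E d)).symm f with ha
  set b := (InnerProductSpace.toDual ℝ (E d)).symm g with hb
  have hfa : ∀ y, f y = ⟪a, y⟫ := fun y => (InnerProductSpace.toDual_symm_apply).symm
  have hgb : ∀ y, g y = ⟪b, y⟫ := fun y => (InnerProductSpace.toDual_symm_apply).symm
  have ha0 : a ≠ 0 := by
    intro h
    apply hf
    ext y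
    rw [hfa, h, inner_zero_left]; rfl
  have hb0 : b ≠ 0 := by
    intro h
    apply hg
    ext y
    rw [hgb, h, inner_zero_left]; rfl
  have h1 : u = (η / ‖a‖) • a := unit_of_support hη ha0 hu' fun z hz => by
    have := hfx (k + z) ⟨k, hk, z, mem_closedBall_zero_iff.2 hz, rfl⟩
    rw [map_add, map_add] at this
    rw [← hfa, ← hfa]
    linarith
  have h2 : u = (η / ‖b‖) • b := unit_of_support hη hb0 hu' fun z hz => by
    have := hgx (k + z) ⟨k, hk, z, mem_closedBall_zero_iff.2 hz, rfl⟩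
    rw [map_add, map_add] at this
    rw [← hgb, ← hgb]
    linarith
  have ha' : 0 < ‖a‖ := norm_pos_iff.2 ha0
  have hb' : 0 < ‖b‖ := norm_pos_iff.2 hb0
  have h3 : b = (‖b‖ / ‖a‖) • a := by
    have h4 : (‖b‖ / η) • u = b := by
      rw [h2, smul_smul]
      have : ‖b‖ / η * (η / ‖b‖) = 1 := by field_simp
      rw [this, one_smul]
    calc b = (‖b‖ / η) • u := h4.symm
      _ = (‖b‖ / η) • ((η / ‖a‖) • a) := by rw [← h1]
      _ = (‖b‖ / ‖a‖) • a := by
          rw [smul_smul]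
          congr 1
          field_simp
  have hc : (‖b‖ / ‖a‖) ≠ 0 := by positivity
  ext y
  show f y = f (k + u) ↔ g y = g (k + u)
  rw [hfa, hfa, hgb, hgb, h3, inner_smul_left, inner_smul_left]
  have hc' : (starRingEnd ℝ) (‖b‖ / ‖a‖) ≠ 0 := by simpa using hc
  exact (mul_right_inj' hc').symm

/-- the outer parallel body as a symmetric body -/
lemma exists_smooth_near (K : SymBody d) {ε : ℝ} (hε : 0 < ε) :
    ∃ L : SymBody d, IsSmooth (L.1 : Set (E d)) ∧ dist L K < ε := by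
  let B : ConvexBody (E d) := ⟨Metric.closedBall (0 : E d) (ε / 2), convex_closedBall _ _,
    isCompact_closedBall _ _, ⟨0, Metric.mem_closedBall_self (by positivity)⟩⟩
  have hB : (B : Set (E d)) = Metric.closedBall (0 : E d) (ε / 2) := rfl
  have hL : ((K.1 + B : ConvexBody (E d)) : Set (E d)) =
      (K.1 : Set (E d)) + Metric.closedBall (0 : E d) (ε / 2) := rfl
  have hsub : (K.1 : Set (E d)) ⊆ ((K.1 + B : ConvexBody (E d)) : Set (E d)) := by
    intro x hx
    rw [hL]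
    exact ⟨x, hx, 0, Metric.mem_closedBall_self (by positivity), add_zero x⟩
  refine ⟨⟨K.1 + B, K.2.1.mono (interior_mono hsub), ?_⟩, ?_, ?_⟩
  · intro x hx
    have hx' : x ∈ (K.1 : Set (E d)) + Metric.closedBall (0 : E d) (ε / 2) := hx
    obtain ⟨k, hk, u, hu, rfl⟩ := hx'
    show -(k + u) ∈ (K.1 : Set (E d)) + Metric.closedBall (0 : E d) (ε / 2)
    refine ⟨-k, K.2.2 k hk, -u, ?_, (neg_add k u).symm⟩
    rw [mem_closedBall_zero_iff, norm_neg]
    exact mem_closedBall_zero_iff.1 hu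
  · exact isSmooth_add_ball _ (by positivity)
  · show dist (K.1 + B) K.1 < ε
    rw [← ConvexBody.hausdorffDist_coe]
    refine lt_of_le_of_lt (Metric.hausdorffDist_le_of_mem_dist (r := ε / 2) (by positivity) ?_ ?_)
      (by linarith)
    · intro x hx
      rw [hL] at hx
      obtain ⟨k, hk, u, hu, rfl⟩ := hx
      refine ⟨k, hk, ?_⟩
      rw [dist_eq_norm, add_sub_cancel_left]
      exact mem_closedBall_zero_iff.1 hu
    · intro x hx
      exact ⟨x, hsub hx, by rw [dist_self]; positivity⟩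

/-- Both bounds for smooth or strictly convex symmetric bodies. -/
theorem Hsep_bounds (hd : d ≤ 8) (K : SymBody d)
    (hK : IsSmooth (K.1 : Set (E d)) ∨ StrictConvex ℝ (K.1 : Set (E d))) :
    ((2 * d : ℕ) : ℕ∞) ≤ Hsep (K.1 : Set (E d)) ∧ Hsep (K.1 : Set (E d)) ≤ (bnd d : ℕ∞) := by
  have hcv := K.1.convex
  have h0 : (0 : E d) ∈ interior (K.1 : Set (E d)) := zero_mem_interior hcv K.2.2 K.2.1
  refine ⟨two_mul_le_Hsep K.1.isCompact K.2.2 h0, ?_⟩
  refine iSup₂_le fun V hV => ?_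
  exact_mod_cast card_config_le hd hcv K.2.2 h0 hK hV

end Pool.Agent.J4.H81.HD
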