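import Pool.Agent.Results.MP_75a0ab_co.NotDense
import Pool.Agent.J4.H81.HD.Bound

set_option autoImplicit false

/-!
# The pairing matrix of a separable Hadwiger configuration
-/

namespace Pool.Agent.J4.H81.HD

open Set Pool.Agent.Results.MP_75a0ab_co.NotDense

variable {d : ℕ}

/-- `K` is smooth: two hyperplanes which support `K` at the same point are equal. -/
def IsSmooth (K : Set (E d)) : Prop :=
  ∀ x ∈ K, ∀ f g : E d →L[ℝ] ℝ, f ≠ 0 → g ≠ 0 → (∀ y ∈ K, f y ≤ f x) → (∀ y ∈ K, g y ≤ g x) →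
    {y | f y = f x} = {y | g y = g x}

/-- in a smooth body the normalised supporting functional is unique -/
lemma IsSmooth.eq {K : Set (E d)} (h : IsSmooth K) {x : E d} (hx : x ∈ K) {f g : E d →L[ℝ] ℝ}
    (hf : ∀ y ∈ K, f y ≤ 1) (hg : ∀ y ∈ K, g y ≤ 1) (hfx : f x = 1) (hgx : g x = 1) : f = g := by
  have hf0 : f ≠ 0 := by rintro rfl; simp at hfx
  have hg0 : g ≠ 0 := by rintro rfl; simp at hgx
  have h1 := h x hx f g hf0 hg0 (by rwa [hfx]) (by rwa [hgx])
  rw [hfx, hgx] at h1
  ext y
  have h2 : f (y - (f y - 1) • x) = 1 := by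
    rw [map_sub, map_smul, hfx, smul_eq_mul, mul_one]; ring
  have h3 : (y - (f y - 1) • x) ∈ {y | g y = 1} := by rw [← h1]; exact h2
  have h4 : g (y - (f y - 1) • x) = 1 := h3
  rw [map_sub, map_smul, hgx, smul_eq_mul, mul_one] at h4
  linarith

lemma interior_tr (K : Set (E d)) (w : E d) :
    interior (tr K w) = (fun x => w + x) '' interior K :=
  ((Homeomorph.addLeft w).image_interior K).symm

section
variable {K : Set (E d)}

lemma smul_mem_interior (hcv : Convex ℝ K) (hs : ∀ x ∈ K, -x ∈ K) (h0 : (0 : E d) ∈ interior K)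
    {x : E d} (hx : x ∈ K) {s : ℝ} (h1 : s < 1) (h2 : -1 < s) : s • x ∈ interior K := by
  have key : ∀ y ∈ K, ∀ r : ℝ, 0 ≤ r → r < 1 → r • y ∈ interior K := by
    intro y hy r hr hr1
    have := hcv.combo_interior_self_mem_interior h0 hy (a := 1 - r) (b := r) (by linarith) hr
      (by ring)
    simpa using this
  rcases le_total 0 s with h | h
  · exact key x hx s h h1
  · have := key (-x) (hs x hx) (-s) (by linarith) (by linarith)
    simpa using this

lemma half_mem (hcv : Convex ℝ K) (hs : ∀ x ∈ K, -x ∈ K) {v : E d}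
    (h : (tr K v ∩ K).Nonempty) : (1 / 2 : ℝ) • v ∈ K := by
  obtain ⟨_, ⟨x, hx, rfl⟩, hz⟩ := h
  have := hcv hz (hs x hx) (a := 1 / 2) (b := 1 / 2) (by norm_num) (by norm_num) (by norm_num)
  have h2 : (1 / 2 : ℝ) • (v + x) + (1 / 2 : ℝ) • -x = (1 / 2 : ℝ) • v := by module
  rw [← h2]
  exact this

/-- the functional of a member -/
lemma exists_fun (hcv : Convex ℝ K) (hs : ∀ x ∈ K, -x ∈ K) (h0 : (0 : E d) ∈ interior K)
    {V : Finset (E d)} (hV : IsSepHadwigerConfig K V) {v : E d} (hv : v ∈ V) :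
    ∃ F : E d →L[ℝ] ℝ, (∀ x ∈ K, F x ≤ 1) ∧ F v = 2 ∧
      ∀ w ∈ V, -2 ≤ F w ∧ (F w ≤ 0 ∨ F w = 2) := by
  obtain ⟨hV0, hVt, hVp, hVs⟩ := hV
  have hne : (0 : E d) ≠ v := fun h => hV0 (h ▸ hv)
  obtain ⟨f, c, hf0, h1, h2, h3⟩ := hVs 0 (mem_insert _ _) v (mem_insert_of_mem _ hv) hne
  have hK : ∀ x ∈ K, f x ≤ c := fun x hx => h1 x ⟨x, hx, zero_add x⟩
  have hc : 0 < c := by
    have := interior_le hf0 hK 0 h0
    simpa using this
  have hvK := half_mem hcv hs (hVt v hv)
  have h4 : f v ≤ 2 * c := by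
    have := hK _ hvK
    rw [map_smul, smul_eq_mul] at this
    linarith
  have h5 : 2 * c ≤ f v := by
    have := h2 _ ⟨_, hs _ hvK, rfl⟩
    simp only [map_add, map_neg, map_smul, smul_eq_mul] at this
    linarith
  have h6 : f v = 2 * c := le_antisymm h4 h5
  refine ⟨c⁻¹ • f, fun x hx => ?_, ?_, fun w hw => ?_⟩
  · show c⁻¹ * f x ≤ 1
    rw [inv_mul_le_iff₀ hc, mul_one]
    exact hK x hx
  · show c⁻¹ * f v = 2
    rw [h6]; field_simp
  · have hwK := half_mem hcv hs (hVt w hw)
    have h7 : f w ≤ 2 * c := by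
      have := hK _ hwK
      rw [map_smul, smul_eq_mul] at this
      linarith
    have h8 : -(2 * c) ≤ f w := by
      have := hK _ (hs _ hwK)
      simp only [map_neg, map_smul, smul_eq_mul] at this
      linarith
    refine ⟨?_, ?_⟩
    · show -2 ≤ c⁻¹ * f w
      rw [le_inv_mul_iff₀ hc]
      linarith
    · by_contra hcon
      push Not at hcon
      obtain ⟨h9, h10⟩ := hcon
      have h9' : 0 < c⁻¹ * f w := h9
      have h10' : c⁻¹ * f w ≠ 2 := h10
      have h11 : c⁻¹ * f w < 2 := by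
        refine lt_of_le_of_ne ?_ h10'
        rw [inv_mul_le_iff₀ hc]
        linarith
      have h12 := smul_mem_interior hcv hs h0 hvK (s := 1 - c⁻¹ * f w) (by linarith)
        (by linarith)
      have h13 := h3 w (mem_insert_of_mem _ hw)
      rw [interior_tr, Set.disjoint_left] at h13
      refine h13 (mem_image_of_mem _ h12) ?_
      show f (w + (1 - c⁻¹ * f w) • ((1 / 2 : ℝ) • v)) = c
      rw [map_add, map_smul, map_smul, smul_eq_mul, smul_eq_mul, h6]
      field_simp
      ring

/-- a functional which separates two members, the smaller side at `w` -/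
lemma sep_fun (hcv : Convex ℝ K) (hs : ∀ x ∈ K, -x ∈ K) (h0 : (0 : E d) ∈ interior K)
    {v w : E d} (hvK : (1 / 2 : ℝ) • v ∈ K) {G : E d →L[ℝ] ℝ}
    (hd : Disjoint (interior K) {x | G x = 1}) (h1 : ∀ x ∈ tr K v, 1 ≤ G x)
    (h2 : ∀ x ∈ tr K w, G x ≤ 1) :
    (∀ x ∈ K, G x ≤ 1) ∧ G ((1 / 2 : ℝ) • v) = 1 ∧ G w ≤ 1 := by
  have h3 : ∀ x ∈ K, G x ≤ 1 := by
    intro x hx
    by_contra hcon
    push Not at hcon
    have hpos : 0 < G x := by linarith
    have h4 := smul_mem_interior hcv hs h0 hx (s := (G x)⁻¹) (inv_lt_one_of_one_lt₀ hcon)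
      (by have := inv_pos.2 hpos; linarith)
    rw [Set.disjoint_left] at hd
    refine hd h4 ?_
    show G ((G x)⁻¹ • x) = 1
    rw [map_smul, smul_eq_mul, inv_mul_cancel₀ hpos.ne']
  refine ⟨h3, le_antisymm (h3 _ hvK) ?_, ?_⟩
  · have := h1 _ ⟨_, hs _ hvK, rfl⟩
    simp only [map_add, map_neg, map_smul, smul_eq_mul] at this ⊢
    linarith
  · have h5 : (0 : E d) ∈ K := interior_subset h0
    have := h2 _ ⟨0, h5, rfl⟩
    simpa using this

/-- two members have different functionals -/
lemma fun_ne_two (hcv : Convex ℝ K) (hs : ∀ x ∈ K, -x ∈ K) (h0 : (0 : E d) ∈ interior K)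
    (hK : IsSmooth K ∨ StrictConvex ℝ K) {V : Finset (E d)} (hV : IsSepHadwigerConfig K V)
    {v w : E d} (hv : v ∈ V) (hw : w ∈ V) (hvw : v ≠ w) {F G : E d →L[ℝ] ℝ}
    (hF : ∀ x ∈ K, F x ≤ 1) (hFv : F v = 2) (hG : ∀ x ∈ K, G x ≤ 1) (hGw : G w = 2) :
    F w ≠ 2 := by
  intro hFw
  have hvK := half_mem hcv hs (hV.2.1 v hv)
  have hwK := half_mem hcv hs (hV.2.1 w hw)
  have e1 : F ((1 / 2 : ℝ) • v) = 1 := by rw [map_smul, smul_eq_mul, hFv]; norm_num
  have e2 : F ((1 / 2 : ℝ) • w) = 1 := by rw [map_smul, smul_eq_mul, hFw]; norm_num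
  have e3 : G ((1 / 2 : ℝ) • w) = 1 := by rw [map_smul, smul_eq_mul, hGw]; norm_num
  rcases hK with hK | hK
  · have hFG : F = G := hK.eq hwK hF hG e2 e3
    obtain ⟨g, c, hg0, h1, h2, h3⟩ := hV.2.2.2 v (mem_insert_of_mem _ hv) w
      (mem_insert_of_mem _ hw) hvw
    have h4 := h3 0 (mem_insert _ _)
    have h5 : tr K 0 = K := by
      unfold tr
      simp
    rw [h5] at h4
    have hc0 : c ≠ 0 := by
      intro hc
      rw [Set.disjoint_left] at h4
      exact h4 h0 (by rw [hc]; exact map_zero g)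
    rcases lt_or_gt_of_ne hc0 with hc | hc
    · -- the hyperplane supports `K` at `v / 2`
      have key := sep_fun (w := w) hcv hs h0 hvK (G := c⁻¹ • g) (by
          have : {x | (c⁻¹ • g) x = 1} = {x | g x = c} := by
            ext x
            show c⁻¹ * g x = 1 ↔ g x = c
            rw [inv_mul_eq_one₀ hc0, eq_comm]
          rw [this]
          exact h4) (fun x hx => by
            have := h1 x hx
            show 1 ≤ c⁻¹ * g x
            rw [← div_eq_inv_mul, one_le_div_of_neg hc]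
            exact this) (fun x hx => by
            have := h2 x hx
            show c⁻¹ * g x ≤ 1
            rw [← div_eq_inv_mul, div_le_one_of_neg hc]
            exact this)
      obtain ⟨k1, k2, k3⟩ := key
      have h6 : c⁻¹ • g = F := hK.eq hvK k1 hF k2 e1
      rw [h6, hFw] at k3
      norm_num at k3
    · have key := sep_fun (w := v) hcv hs h0 hwK (G := c⁻¹ • g) (by
          have : {x | (c⁻¹ • g) x = 1} = {x | g x = c} := by
            ext x
            show c⁻¹ * g x = 1 ↔ g x = c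
            rw [inv_mul_eq_one₀ hc0, eq_comm]
          rw [this]
          exact h4) (fun x hx => by
            have := h2 x hx
            show 1 ≤ c⁻¹ * g x
            rw [← div_eq_inv_mul, one_le_div hc]
            exact this) (fun x hx => by
            have := h1 x hx
            show c⁻¹ * g x ≤ 1
            rw [← div_eq_inv_mul, div_le_one hc]
            exact this)
      obtain ⟨k1, k2, k3⟩ := key
      have h6 : c⁻¹ • g = F := hK.eq hwK k1 hF k2 e2
      rw [h6, hFv] at k3
      norm_num at k3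
  · by_cases h : (1 / 2 : ℝ) • v = (1 / 2 : ℝ) • w
    · exact hvw (smul_right_injective _ (by norm_num : (1 / 2 : ℝ) ≠ 0) h)
    · have h1 := hK hvK hwK h (a := 1 / 2) (b := 1 / 2) (by norm_num) (by norm_num) (by norm_num)
      have hF0 : F ≠ 0 := by rintro rfl; simp at hFv
      have h2 := interior_le hF0 hF _ h1
      simp only [map_add, map_smul, smul_eq_mul, hFv, hFw] at h2
      norm_num at h2

/-- opposite members -/
lemma anti_fun (hcv : Convex ℝ K) (hs : ∀ x ∈ K, -x ∈ K) 
    (hK : IsSmooth K ∨ StrictConvex ℝ K) {V : Finset (E d)} (hV : IsSepHadwigerConfig K V)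
    {v w : E d} (hv : v ∈ V) (hw : w ∈ V) {F G : E d →L[ℝ] ℝ}
    (hF : ∀ x ∈ K, F x ≤ 1) (hFv : F v = 2) (hG : ∀ x ∈ K, G x ≤ 1) (hGw : G w = 2)
    (hFw : F w = -2) : G = -F ∨ w = -v := by
  have hvK := half_mem hcv hs (hV.2.1 v hv)
  have hwK := half_mem hcv hs (hV.2.1 w hw)
  have e1 : F ((1 / 2 : ℝ) • v) = 1 := by rw [map_smul, smul_eq_mul, hFv]; norm_num
  rcases hK with hK | hK
  · left
    refine hK.eq hwK hG (f := G) (g := -F) (fun y hy => ?_) ?_ ?_
    · have := hF _ (hs y hy)
      rw [map_neg] at this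
      exact this
    · rw [map_smul, smul_eq_mul, hGw]; norm_num
    · show -(F ((1 / 2 : ℝ) • w)) = 1
      rw [map_smul, smul_eq_mul, hFw]; norm_num
  · right
    by_contra hne
    have h1 : (1 / 2 : ℝ) • v ≠ -((1 / 2 : ℝ) • w) := by
      intro h
      apply hne
      have h2 : (1 / 2 : ℝ) • w = (1 / 2 : ℝ) • (-v) := by
        rw [smul_neg, h, neg_neg]
      exact smul_right_injective _ (by norm_num : (1 / 2 : ℝ) ≠ 0) h2
    have h2 := hK hvK (hs _ hwK) h1 (a := 1 / 2) (b := 1 / 2) (by norm_num) (by norm_num)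
      (by norm_num)
    have hF0 : F ≠ 0 := by rintro rfl; simp at hFv
    have h3 := interior_le hF0 hF _ h2
    simp only [map_add, map_smul, map_neg, smul_eq_mul, hFv, hFw] at h3
    norm_num at h3

/-- The upper bound. -/
theorem card_config_le (hd : d ≤ 8) (hcv : Convex ℝ K) (hs : ∀ x ∈ K, -x ∈ K)
    (h0 : (0 : E d) ∈ interior K) (hK : IsSmooth K ∨ StrictConvex ℝ K) {V : Finset (E d)}
    (hV : IsSepHadwigerConfig K V) : V.card ≤ bnd d := by
  classical
  choose F hF hFv hFw using fun v : {v // v ∈ V} => exists_fun hcv hs h0 hV v.2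
  let e : Fin V.card ≃ {v // v ∈ V} := V.equivFin.symm
  let M : Matrix (Fin V.card) (Fin V.card) ℝ := Matrix.of fun i j => F (e i) (e j) / 2
  have hM : ∀ i j, M i j = F (e i) (e j) / 2 := fun i j => rfl
  have hA : Adm M := by
    refine ⟨fun i => ?_, fun i j hij => ?_, fun i j hij => ?_, fun i j hij h => ?_⟩
    · rw [hM, hFv]; norm_num
    · have hne : ((e i : {v // v ∈ V}) : E d) ≠ (e j : {v // v ∈ V}) := fun h =>
        hij (e.injective (Subtype.ext h))
      rw [hM]
      rcases (hFw (e i) _ (e j).2).2 with h | h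
      · linarith
      · exact absurd h (fun_ne_two hcv hs h0 hK hV (e i).2 (e j).2 hne (hF (e i)) (hFv (e i))
          (hF (e j)) (hFv (e j)))
    · rw [hM]
      linarith [(hFw (e i) _ (e j).2).1]
    · rw [hM] at h
      have h1 : F (e i) (e j) = -2 := by linarith
      rcases anti_fun hcv hs hK hV (e i).2 (e j).2 (hF (e i)) (hFv (e i)) (hF (e j)) (hFv (e j))
        h1 with h2 | h2
      · left
        intro k
        rw [hM, hM, h2]
        show -(F (e i) (e k)) / 2 = _
        ring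
      · right
        intro k
        rw [hM, hM, h2, map_neg]
        ring
  have hrk : M.rank ≤ d := by
    let A : Matrix (Fin V.card) (Fin d) ℝ :=
      Matrix.of fun i k => F (e i) (EuclideanSpace.single k 1) / 2
    let B : Matrix (Fin d) (Fin V.card) ℝ := Matrix.of fun k j => (e j : E d) k
    have hAB : M = A * B := by
      ext i j
      rw [Matrix.mul_apply, hM]
      have h1 : (e j : E d) = ∑ k, ((e j : E d) k) • (EuclideanSpace.single k (1 : ℝ) : E d) := by
        ext l
        simp [Finset.sum_apply, Pi.single_apply]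
      conv_lhs => rw [h1, map_sum]
      rw [Finset.sum_div]
      refine Finset.sum_congr rfl fun k _ => ?_
      rw [map_smul, smul_eq_mul]
      show _ = F (e i) (EuclideanSpace.single k 1) / 2 * (e j : E d) k
      ring
    rw [hAB]
    refine (Matrix.rank_mul_le_left _ _).trans ?_
    refine (Matrix.rank_le_card_width A).trans ?_
    simp
  have h1 := card_le_bnd V.card (Fin V.card) M (Fintype.card_fin _) hA (hrk.trans hd)
  rw [Fintype.card_fin] at h1
  exact h1.trans (bnd_mono _ _ hrk)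

/-- a symmetric convex set with an interior point has the origin in its interior -/
lemma zero_mem_interior (hcv : Convex ℝ K) (hs : ∀ x ∈ K, -x ∈ K) (hne : (interior K).Nonempty) :
    (0 : E d) ∈ interior K := by
  obtain ⟨x, hx⟩ := hne
  have h1 := hcv.combo_interior_self_mem_interior hx (hs x (interior_subset hx)) (a := 1 / 2)
    (b := 1 / 2) (by norm_num) (by norm_num) (by norm_num)
  have h2 : (1 / 2 : ℝ) • x + (1 / 2 : ℝ) • -x = 0 := by module
  rwa [h2] at h1

end

end Pool.Agent.J4.H81.HD
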