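import Mathlib

set_option autoImplicit false

/-!
# A trace inequality for matrices of small rank
-/

namespace Pool.Agent.J4.H81.HD

open Finset Module

variable {ι : Type} [Fintype ι] [DecidableEq ι]

/-- the matrix as a linear map of Euclidean space -/
noncomputable def lin (A : Matrix ι ι ℝ) : EuclideanSpace ℝ ι →ₗ[ℝ] EuclideanSpace ℝ ι :=
  Matrix.toEuclideanLin A

lemma lin_apply (A : Matrix ι ι ℝ) (x : EuclideanSpace ℝ ι) (i : ι) :
    lin A x i = ∑ j, A i j * x j := by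
  simp [lin, Matrix.toEuclideanLin, Matrix.mulVec, dotProduct]

lemma lin_basis (A : Matrix ι ι ℝ) (i j : ι) :
    lin A (EuclideanSpace.basisFun ι ℝ j) i = A i j := by
  rw [lin_apply]
  simp [EuclideanSpace.basisFun_apply, Pi.single_apply]

lemma inner_eq (x y : EuclideanSpace ℝ ι) : inner ℝ x y = ∑ i, x i * y i := by
  simp [PiLp.inner_apply, mul_comm]

lemma trace_lin (A : Matrix ι ι ℝ) : LinearMap.trace ℝ _ (lin A) = ∑ i, A i i := by
  rw [LinearMap.trace_eq_sum_inner (lin A) (EuclideanSpace.basisFun ι ℝ)]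
  refine Finset.sum_congr rfl fun i _ => ?_
  rw [inner_eq, ← lin_basis A i i]
  simp [EuclideanSpace.basisFun_apply, Pi.single_apply]

lemma sum_norm_sq (A : Matrix ι ι ℝ) {κ : Type} [Fintype κ]
    (b : OrthonormalBasis κ ℝ (EuclideanSpace ℝ ι)) :
    ∑ k, ‖lin A (b k)‖ ^ 2 = ∑ i, ∑ j, A i j ^ 2 := by
  have h : ∀ {μ : Type} [Fintype μ] (c : OrthonormalBasis μ ℝ (EuclideanSpace ℝ ι)),
      LinearMap.trace ℝ _ ((LinearMap.adjoint (lin A)) ∘ₗ lin A) = ∑ k, ‖lin A (c k)‖ ^ 2 := by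
    intro μ _ c
    rw [LinearMap.trace_eq_sum_inner _ c]
    refine Finset.sum_congr rfl fun k _ => ?_
    rw [LinearMap.comp_apply, LinearMap.adjoint_inner_right, real_inner_self_eq_norm_sq]
  rw [← h b, h (EuclideanSpace.basisFun ι ℝ), Finset.sum_comm]
  refine Finset.sum_congr rfl fun j _ => ?_
  rw [← real_inner_self_eq_norm_sq, inner_eq]
  refine Finset.sum_congr rfl fun i _ => ?_
  rw [lin_basis, sq]

lemma finrank_ker (A : Matrix ι ι ℝ) :
    finrank ℝ (LinearMap.ker (lin A)) + A.rank = Fintype.card ι := by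
  have h := LinearMap.finrank_range_add_finrank_ker (lin A)
  have h2 : A.rank = finrank ℝ (LinearMap.range (lin A)) := by
    unfold lin
    exact Matrix.rank_eq_finrank_range_toLin A (EuclideanSpace.basisFun ι ℝ).toBasis
      (EuclideanSpace.basisFun ι ℝ).toBasis
  rw [h2, add_comm, h, finrank_euclideanSpace]

/-- `(tr A)² ≤ rank A ‖A‖²` -/
lemma trace_sq (A : Matrix ι ι ℝ) :
    (∑ i, A i i) ^ 2 ≤ A.rank * ∑ i, ∑ j, A i j ^ 2 := by
  classical
  have hk := finrank_ker A
  set K := LinearMap.ker (lin A) with hK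
  let bK := stdOrthonormalBasis ℝ K
  let κ := Fin (finrank ℝ K) ⊕ Fin A.rank
  have hcard : finrank ℝ (EuclideanSpace ℝ ι) = Fintype.card κ := by
    simp [κ, finrank_euclideanSpace, hk]
  let v : κ → EuclideanSpace ℝ ι := Sum.elim (fun k => (bK k : EuclideanSpace ℝ ι)) (fun _ => 0)
  have hv : Orthonormal ℝ ((Set.range (Sum.inl : _ → κ)).restrict v) := by
    have h1 : Orthonormal ℝ (fun k => (bK k : EuclideanSpace ℝ ι)) :=
      bK.orthonormal.comp_linearIsometry K.subtypeₗᵢ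
    constructor
    · rintro ⟨_, k, rfl⟩
      exact h1.1 k
    · rintro ⟨_, k, rfl⟩ ⟨_, l, rfl⟩ hkl
      refine h1.2 ?_
      rintro rfl
      exact hkl rfl
  obtain ⟨b, hb⟩ := hv.exists_orthonormalBasis_extension_of_card_eq hcard
  have hb1 : ∀ k, lin A (b (Sum.inl k)) = 0 := by
    intro k
    rw [hb _ ⟨k, rfl⟩]
    exact (bK k).2
  rw [← trace_lin, LinearMap.trace_eq_sum_inner (lin A) b, ← sum_norm_sq A b,
    Fintype.sum_sum_type, Fintype.sum_sum_type]
  simp only [hb1, inner_zero_right, Finset.sum_const_zero, zero_add, norm_zero, ne_eq,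
    OfNat.ofNat_ne_zero, not_false_eq_true, zero_pow]
  calc (∑ x : Fin A.rank, inner ℝ (b (Sum.inr x)) (lin A (b (Sum.inr x)))) ^ 2
      ≤ (Finset.univ : Finset (Fin A.rank)).card *
          ∑ x : Fin A.rank, (inner ℝ (b (Sum.inr x)) (lin A (b (Sum.inr x)))) ^ 2 :=
        sq_sum_le_card_mul_sum_sq
    _ ≤ _ := by
        rw [Finset.card_univ, Fintype.card_fin]
        refine mul_le_mul_of_nonneg_left (Finset.sum_le_sum fun x _ => ?_) (by positivity)
        have h3 := abs_real_inner_le_norm (b (Sum.inr x)) (lin A (b (Sum.inr x)))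
        rw [b.norm_eq_one, one_mul] at h3
        exact sq_le_sq' (by linarith [neg_abs_le (inner ℝ (b (Sum.inr x)) (lin A (b (Sum.inr x))))])
          (le_trans (le_abs_self _) h3)

/-- the refinement for a unit vector orthogonal to the kernel -/
lemma trace_sq_vec (A : Matrix ι ι ℝ) (e : EuclideanSpace ℝ ι) (he : ‖e‖ = 1)
    (hker : ∀ k, lin A k = 0 → inner ℝ e k = 0) :
    1 ≤ A.rank ∧ 0 ≤ ∑ i, ∑ j, A i j ^ 2 - (inner ℝ e (lin A e)) ^ 2 ∧
    (∑ i, A i i - inner ℝ e (lin A e)) ^ 2 ≤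
      ((A.rank : ℝ) - 1) * (∑ i, ∑ j, A i j ^ 2 - (inner ℝ e (lin A e)) ^ 2) := by
  classical
  have hk := finrank_ker A
  set K := LinearMap.ker (lin A) with hK
  let bK := stdOrthonormalBasis ℝ K
  have hr : 0 < A.rank := by
    by_contra h0
    have h0' : A.rank = 0 := by omega
    have h2 : finrank ℝ K = finrank ℝ (EuclideanSpace ℝ ι) := by
      rw [finrank_euclideanSpace]; omega
    have h3 : K = ⊤ := Submodule.eq_top_of_finrank_eq h2
    have h4 : lin A e = 0 := by
      have : e ∈ K := by rw [h3]; trivial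
      exact this
    have h5 := hker e h4
    rw [real_inner_self_eq_norm_sq, he] at h5
    norm_num at h5
  let κ := Fin (finrank ℝ K) ⊕ (Unit ⊕ Fin (A.rank - 1))
  have hcard : finrank ℝ (EuclideanSpace ℝ ι) = Fintype.card κ := by
    simp [κ, finrank_euclideanSpace]
    omega
  let v : κ → EuclideanSpace ℝ ι := Sum.elim (fun k => (bK k : EuclideanSpace ℝ ι))
    (Sum.elim (fun _ => e) (fun _ => 0))
  let s : Set κ := {x | (∃ k, x = Sum.inl k) ∨ x = Sum.inr (Sum.inl ())}
  have hv : Orthonormal ℝ (s.restrict v) := by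
    have h1 : Orthonormal ℝ (fun k => (bK k : EuclideanSpace ℝ ι)) :=
      bK.orthonormal.comp_linearIsometry K.subtypeₗᵢ
    constructor
    · rintro ⟨_, ⟨k, rfl⟩ | rfl⟩
      · exact h1.1 k
      · exact he
    · rintro ⟨_, ⟨k, rfl⟩ | rfl⟩ ⟨_, ⟨l, rfl⟩ | rfl⟩ hkl
      · refine h1.2 ?_
        rintro rfl
        exact hkl rfl
      · show inner ℝ (bK k : EuclideanSpace ℝ ι) e = 0
        rw [real_inner_comm]
        exact hker _ (bK k).2
      · show inner ℝ e (bK l : EuclideanSpace ℝ ι) = 0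
        exact hker _ (bK l).2
      · exact absurd rfl hkl
  obtain ⟨b, hb⟩ := hv.exists_orthonormalBasis_extension_of_card_eq hcard
  have hb1 : ∀ k, lin A (b (Sum.inl k)) = 0 := by
    intro k
    rw [hb _ (Or.inl ⟨k, rfl⟩)]
    exact (bK k).2
  have hb2 : b (Sum.inr (Sum.inl ())) = e := hb _ (Or.inr rfl)
  have hc : (((A.rank - 1 : ℕ) : ℝ)) = (A.rank : ℝ) - 1 := by
    rw [Nat.cast_sub hr]; simp
  set c : Fin (A.rank - 1) → EuclideanSpace ℝ ι := fun x => b (Sum.inr (Sum.inr x)) with hcd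
  have h1 : ∑ i, A i i = inner ℝ e (lin A e) + ∑ x, inner ℝ (c x) (lin A (c x)) := by
    rw [← trace_lin, LinearMap.trace_eq_sum_inner (lin A) b, Fintype.sum_sum_type,
      Fintype.sum_sum_type]
    simp only [hb1, inner_zero_right, Finset.sum_const_zero, zero_add, Finset.univ_unique,
      Finset.sum_singleton]
    have hu : (default : Unit) = () := rfl
    rw [hu, hb2]
  have h2 : ∑ i, ∑ j, A i j ^ 2 = ‖lin A e‖ ^ 2 + ∑ x, ‖lin A (c x)‖ ^ 2 := by
    rw [← sum_norm_sq A b, Fintype.sum_sum_type, Fintype.sum_sum_type]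
    simp only [hb1, Finset.sum_const_zero, zero_add, norm_zero, ne_eq,
      OfNat.ofNat_ne_zero, not_false_eq_true, zero_pow, Finset.univ_unique, Finset.sum_singleton]
    have hu : (default : Unit) = () := rfl
    rw [hu, hb2]
  have ht : (inner ℝ e (lin A e)) ^ 2 ≤ ‖lin A e‖ ^ 2 := by
    have h3 := abs_real_inner_le_norm e (lin A e)
    rw [he, one_mul] at h3
    exact sq_le_sq' (by linarith [neg_abs_le (inner ℝ e (lin A e))])
      (le_trans (le_abs_self _) h3)
  have h3 : (∑ x, inner ℝ (c x) (lin A (c x))) ^ 2 ≤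
      ((A.rank : ℝ) - 1) * ∑ x, ‖lin A (c x)‖ ^ 2 := by
    have h5 : (∑ x, inner ℝ (c x) (lin A (c x))) ^ 2 ≤
        (Finset.univ : Finset (Fin (A.rank - 1))).card *
          ∑ x, (inner ℝ (c x) (lin A (c x))) ^ 2 := sq_sum_le_card_mul_sum_sq
    rw [Finset.card_univ, Fintype.card_fin, hc] at h5
    refine h5.trans (mul_le_mul_of_nonneg_left (Finset.sum_le_sum fun x _ => ?_) ?_)
    · have h6 := abs_real_inner_le_norm (c x) (lin A (c x))
      have h7 : ‖c x‖ = 1 := b.norm_eq_one _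
      rw [h7, one_mul] at h6
      exact sq_le_sq' (by linarith [neg_abs_le (inner ℝ (c x) (lin A (c x)))])
        (le_trans (le_abs_self _) h6)
    · rw [← hc]; positivity
  have h4 : 0 ≤ ∑ x, ‖lin A (c x)‖ ^ 2 := Finset.sum_nonneg fun x _ => by positivity
  have hr1 : (0 : ℝ) ≤ (A.rank : ℝ) - 1 := by rw [← hc]; positivity
  refine ⟨hr, ?_, ?_⟩
  · rw [h2]; linarith
  · rw [h1, h2, add_sub_cancel_left]
    refine h3.trans (mul_le_mul_of_nonneg_left ?_ hr1)
    linarith

end Pool.Agent.J4.H81.HD
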